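import Pool.Agent.BEH.StmtsD
import Pool.Agent.Helper10_BEH.EXT
import Pool.Agent.Helper77_BEH.MMT
import Pool.Agent.Helper62_BEH.MMX
import Pool.Agent.Helper44_BEH.EGK
import Pool.Agent.Helper5_BEH.PRR
import Pool.Agent.Helper80_BEH.ENI
import Pool.Agent.Helper50_BEH.LEB
import Pool.Agent.Helper52_BEH.QUA
import Pool.Agent.Helper4_BEH.THE
import Pool.Agent.Helper27_BEH.CHI
import Pool.Agent.Helper8_BEH.RAI
import Pool.Agent.Helper77_BEH.RGR
import Pool.Agent.Helper62_BEH.ERR
import Pool.Agent.Helper65_BEH.DYA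
import Pool.Agent.Helper39_BEH.HU2
import Pool.Agent.Helper40_BEH.GEO
import Pool.Agent.Helper60_BEH.PRE
import Pool.Agent.Helper75_BEH.UPP
import Pool.Agent.Helper89_BEH.DUA
import Pool.Agent.Helper24_BEH.LOW
import Pool.Agent.Helper32_BEH.ABV
import Pool.Agent.Helper43_BEH.MNE
import Pool.Agent.Helper65_BEH.POW
import Pool.Agent.Helper42_BEH.VOD
import Pool.Agent.Helper50_BEH.RAD
import Pool.Agent.Helper60_BEH.HUD
import Pool.Agent.Helper62_BEH.HOD
import Pool.Agent.Helper28_BEH.SYD
import Pool.Agent.Helper58_BEH.POD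
import Pool.Agent.Helper79_BEH.RED
import Pool.Agent.Helper95_BEH.SMD
import Pool.Agent.Helper23_BEH.AVU
import Pool.Agent.Helper24_BEH.NSU
import Pool.Agent.Helper39_BEH.ULU
import Pool.Agent.Helper46_BEH.LIU
import Pool.Agent.Helper19_BEH.STD
import Pool.Agent.Helper91_BEH.UN3
import Pool.Agent.Helper69_BEH.DED

/-!
# Squad BEH, part D: all rows together (domains with small holes, every dimension)
-/

set_option autoImplicit false

namespace Pool.Agent.BEH.H25

open Pool.Agent.BEH

theorem hu2A : Hu2Stmt := H39.hu2 H27.chi H8.rai H77.rgr H62.err H65.dya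
theorem hudA : HudStmt := H60.hud H27.chi H50.rad H42.vod H77.rgr H62.err
theorem mmxA : MmxStmt := H62.mmx H10.ext H77.mmt
theorem uppA : UppStmt := H75.upp H77.mmt H5.prr (H80.eni H5.prr) H60.pre
theorem lowA : LowStmt := H24.low H10.ext H89.dua
theorem stdA : StdStmt := H19.std (H46.liu (H39.ulu (H24.nsu H23.avu)))

/-- The theorem (C) in every dimension in which the uniform final state theorem holds. -/
theorem dedA (hfd : HfdStmt) (mvd : MvdStmt) : DedStmt :=
  H69.ded mmxA H44.egk H79.red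
    (H28.syd H50.leb H52.qua (H62.hod H4.the hu2A H42.vod hudA hfd))
    H40.geo uppA lowA (H95.smd H79.red H32.abv H43.mne (H58.pod H50.leb mvd)) stdA H65.pow

end Pool.Agent.BEH.H25
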