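import Pool.Agent.Helper25_BEH.AllD
import Pool.Agent.Helper41_BEH.HFD
import Pool.Agent.Helper80_BEH.MVD

/-!
# Squad BEH, part D, unconditional: `DedStmt` (in every dimension in which the uniform final state
theorem holds, every domain with the required properties minus small balls has the sharp rate).
-/

set_option autoImplicit false

namespace Pool.Agent.BEH.H25

open Pool.Agent.BEH

theorem hfdA : HfdStmt := H41.hfd H42.vod H50.rad H77.rgr
theorem mvdA : MvdStmt := H80.mvd H4.the H42.vod hfdA

theorem dedU : DedStmt := dedA hfdA mvdA

end Pool.Agent.BEH.H25
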